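import Mathlib
import Pool.Agent.Helper58.SignedDefs
import Pool.Agent.Helper58.SignedZp

set_option autoImplicit false

open Finset Pointwise Pool.Agent.Helper58
open scoped Classical

namespace Pool.Agent.Results.MP_2c5934_co.SignedSumsets

/-- small sumsets in the range below `p` -/
lemma small_lower {p h m r : ℕ} (hp : p.Prime) (hh : 1 ≤ h) (hm : 1 ≤ m)
    (hlt : h * (m - 1) + 1 < p) [Fintype (Fin r → ZMod p)]
    {A : Finset (Fin r → ZMod p)} (hA : A.card = m) : h * (m - 1) + 1 ≤ (hs h A).card := by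
  have hAne : A.Nonempty := Finset.card_pos.1 (by omega)
  obtain ⟨h', hh'⟩ : ∃ h', h = h' + 1 := ⟨h - 1, by omega⟩
  by_cases hbot : stab (hs h A) = ⊥
  · have h1 := multi_kneser hAne h'
    rw [← hh', hbot, F_bot_card] at h1
    have h2 := Finset.card_le_card (subset_sat A (⊥ : AddSubgroup (Fin r → ZMod p)))
    have h3 := Nat.mul_le_mul_left h h2
    rw [hA] at h3
    have e : h * (m - 1) + h = h * m := by
      obtain ⟨t, rfl⟩ : ∃ t, m = t + 1 := ⟨m - 1, by omega⟩
      rw [Nat.add_sub_cancel]; ring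
    omega
  · have h1 : (F (stab (hs h A))).card ≤ (hs h A).card :=
      card_le_of_inv (le_refl _) (hs_nonempty hAne h)
    obtain ⟨j, _, hqj⟩ : ∃ j ≤ r, (F (stab (hs h A))).card = p ^ j := by
      have h1 : (F (stab (hs h A))).card ∣ p ^ r := by
        rw [F_card_eq]
        have h2 := AddSubgroup.card_addSubgroup_dvd_card (stab (hs h A))
        have h3 : Nat.card (Fin r → ZMod p) = p ^ r := by
          rw [Nat.card_fun, Nat.card_zmod, Nat.card_eq_fintype_card, Fintype.card_fin]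
        rwa [h3] at h2
      exact (Nat.dvd_prime_pow hp).1 h1
    have hj : j ≠ 0 := by
      rintro rfl
      apply hbot
      rw [pow_zero, Finset.card_eq_one] at hqj
      obtain ⟨a, ha⟩ := hqj
      rw [AddSubgroup.eq_bot_iff_forall]
      intro x hx
      have h2 : x ∈ F (stab (hs h A)) := mem_F.2 hx
      have h3 : (0 : Fin r → ZMod p) ∈ F (stab (hs h A)) := mem_F.2 (AddSubgroup.zero_mem _)
      rw [ha, Finset.mem_singleton] at h2 h3
      rw [h2, h3]
    have : p ^ 1 ≤ p ^ j := Nat.pow_le_pow_right hp.pos (by omega)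
    rw [pow_one] at this
    omega

/-- The complete answer: for all parameters with `m > (c+1)p^k`, the strict inequality holds if
and only if `p ≤ h(m-1)+1`; in particular the unrestricted statement is false. -/
theorem result :
    (∀ p r h m k c δ : ℕ, p.Prime → p ≠ 2 → 2 ≤ r → 2 ≤ h → h ≤ p - 1 → 2 ≤ m → m ≤ p ^ r →
      δ = (if h ∣ p - 1 then 0 else 1) →
      IsGreatest {k' : ℕ | p ^ k' + δ ≤ h * m - h + 1} k →
      IsGreatest {c' : ℕ | (h * c' + 1) * p ^ k + δ ≤ h * m - h + 1} c →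
      (c + 1) * p ^ k < m →
      (rho (Fin r → ZMod p) m h < rhoPM (Fin r → ZMod p) m h ↔ p ≤ h * (m - 1) + 1)) ∧
    ¬ (∀ p r h m k c δ : ℕ, p.Prime → p ≠ 2 → 2 ≤ r → 2 ≤ h → h ≤ p - 1 → 2 ≤ m → m ≤ p ^ r →
      δ = (if h ∣ p - 1 then 0 else 1) →
      IsGreatest {k' : ℕ | p ^ k' + δ ≤ h * m - h + 1} k →
      IsGreatest {c' : ℕ | (h * c' + 1) * p ^ k + δ ≤ h * m - h + 1} c →
      (c + 1) * p ^ k < m →
      rho (Fin r → ZMod p) m h < rhoPM (Fin r → ZMod p) m h) := by
  have main : ∀ p r h m k c δ : ℕ, p.Prime → p ≠ 2 → 2 ≤ r → 2 ≤ h → h ≤ p - 1 → 2 ≤ m →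
      m ≤ p ^ r → δ = (if h ∣ p - 1 then 0 else 1) →
      IsGreatest {k' : ℕ | p ^ k' + δ ≤ h * m - h + 1} k →
      IsGreatest {c' : ℕ | (h * c' + 1) * p ^ k + δ ≤ h * m - h + 1} c →
      (c + 1) * p ^ k < m →
      (rho (Fin r → ZMod p) m h < rhoPM (Fin r → ZMod p) m h ↔ p ≤ h * (m - 1) + 1) := by
    intro p r h m k c δ hp hp2 hr hh hhp hm hmr hδ hk hc hmc
    have hne : NeZero p := ⟨hp.ne_zero⟩
    have hhp' : h < p := by have := hp.pos; omega
    obtain ⟨A₀, hA₀, hA₀u⟩ := exists_segment (p := p) (r := r) (h := h) (m := m) (by omega) hmr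
    constructor
    · intro hlt
      by_contra hcon
      push Not at hcon
      have hmp : m < p := by nlinarith [Nat.sub_add_cancel (show 1 ≤ m by omega)]
      obtain ⟨A, hA, hAle⟩ := signed_ap (h := h) hp hp2 (show 1 ≤ r by omega)
        (show 1 ≤ m by omega) hmp
      have h0 : rhoPM (Fin r → ZMod p) m h ≤ (signedSumset h A).ncard :=
        Nat.sInf_le ⟨A, hA, rfl⟩
      have h1 : rhoPM (Fin r → ZMod p) m h ≤ h * (m - 1) + 1 := h0.trans hAle
      have h2 : h * (m - 1) + 1 ≤ rho (Fin r → ZMod p) m h := by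
        have hmem := Nat.sInf_mem (s := {n : ℕ | ∃ A : Finset (Fin r → ZMod p),
          A.card = m ∧ (sumset h A).ncard = n}) ⟨_, A₀, hA₀, rfl⟩
        obtain ⟨B, hB, hBn⟩ := hmem
        have h3 := small_lower hp (by omega) (by omega) hcon hB
        rw [sumset_eq, Set.ncard_coe_finset] at hBn
        rw [rho, ← hBn]
        exact h3
      omega
    · intro hge
      by_contra hcon
      push Not at hcon
      have hmem := Nat.sInf_mem (s := {n : ℕ | ∃ A : Finset (Fin r → ZMod p),
          A.card = m ∧ (signedSumset h A).ncard = n}) ⟨_, A₀, hA₀, rfl⟩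
      obtain ⟨B, hB, hBn⟩ := hmem
      have hu : ∀ i, i ≤ r → (signedSumset h B).ncard ≤ (h * ((m - 1) / p ^ i) + 1) * p ^ i := by
        intro i _
        rw [hBn]
        have h0 : rho (Fin r → ZMod p) m h ≤ (sumset h A₀).ncard :=
          Nat.sInf_le ⟨A₀, hA₀, rfl⟩
        rw [sumset_eq, Set.ncard_coe_finset] at h0
        exact le_trans hcon (le_trans h0 (hA₀u i))
      rcases lower hp hp2 hh hhp' hm hδ (fun k' hk' => hk.2 hk') (fun c' hc' => hc.2 hc')
        hB hu with h1 | h1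
      · omega
      · omega
  refine ⟨main, fun hall => ?_⟩
  have hk : IsGreatest {k' : ℕ | 5 ^ k' + 1 ≤ 3 * 2 - 3 + 1} 0 := by
    constructor
    · norm_num
    · intro k' hk'
      simp only [Set.mem_ofPred_eq] at hk'
      by_contra hcon
      push Not at hcon
      have : 5 ^ 1 ≤ 5 ^ k' := Nat.pow_le_pow_right (by norm_num) hcon
      omega
  have hc : IsGreatest {c' : ℕ | (3 * c' + 1) * 5 ^ 0 + 1 ≤ 3 * 2 - 3 + 1} 0 := by
    constructor
    · norm_num
    · intro c' hc'
      simp only [Set.mem_ofPred_eq, pow_zero, mul_one] at hc'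
      omega
  have hδ : (1 : ℕ) = if 3 ∣ 5 - 1 then 0 else 1 := by norm_num
  have h1 := main 5 2 3 2 0 0 1 (by norm_num) (by norm_num) (by norm_num) (by norm_num)
    (by norm_num) (by norm_num) (by norm_num) hδ hk hc (by norm_num)
  have h2 := hall 5 2 3 2 0 0 1 (by norm_num) (by norm_num) (by norm_num) (by norm_num)
    (by norm_num) (by norm_num) (by norm_num) hδ hk hc (by norm_num)
  have h3 := h1.1 h2
  norm_num at h3

end Pool.Agent.Results.MP_2c5934_co.SignedSumsets
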